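import Pool.Agent.Work.MP_d4a230_co.T.Defs
import Pool.Agent.Work.MP_d4a230_co.C.Stmt

/-!
Trees of copies of a strictly balanced graph.
-/

namespace Pool.Agent.Work.MP_d4a230_co.U

open Finset Filter Topology Pool.Agent.Work.MP_07f1b5_pr
open scoped BigOperators

set_option linter.unusedSectionVars false

variable {W W0 : Type} [Fintype W] [DecidableEq W] [Fintype W0] [DecidableEq W0]
  {H : SimpleGraph W} [DecidableRel H.Adj] {F : SimpleGraph W0} [DecidableRel F.Adj]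
  {V : Type} [Fintype V] [DecidableEq V]

/-- Two embeddings share at most one vertex. -/
def TrL (g g2 : W0 ↪ V) : Prop := ∀ a b c d, g a = g2 b → g c = g2 d → a = c

lemma TrL.symm {g g2 : W0 ↪ V} (h : TrL g g2) : TrL g2 g := fun a b c d e1 e2 =>
  g2.injective (e1.trans ((congrArg g (h b a d c e1.symm e2.symm)).trans e2.symm))

lemma tr_clean (D : ℕ) (M : Finset (W0 ↪ V))
    (h : D * ((M ×ˢ univ).image fun x : (W0 ↪ V) × W0 => (x.1 x.2, x.2)).card < M.card) :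
    ∃ M2 ⊆ M, M2.Nonempty ∧ ∀ g ∈ M2, ∀ a, D < (M2.filter fun g2 => g2 a = g a).card := by
  induction M using Finset.strongInductionOn with
  | _ M ih =>
    by_cases k : ∀ g ∈ M, ∀ a, D < (M.filter fun g2 => g2 a = g a).card
    · exact ⟨M, Subset.rfl, card_pos.1 (by omega), k⟩
    push Not at k
    obtain ⟨g, k1, a, k2⟩ := k
    have c1 := card_filter_add_card_filter_not (s := M) fun g2 => g2 a = g a
    have c2 := card_lt_card (s := ((M.filter fun g2 => ¬ g2 a = g a) ×ˢ univ).image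
      fun x : (W0 ↪ V) × W0 => (x.1 x.2, x.2)) (t := (M ×ˢ univ).image
      fun x : (W0 ↪ V) × W0 => (x.1 x.2, x.2)) ⟨image_subset_image (product_subset_product_left
        (filter_subset _ _)), fun e => by
      obtain ⟨x, x1, x2⟩ := mem_image.1 (e (mem_image_of_mem _ (mem_product.2
        (show (g, a).1 ∈ M ∧ (g, a).2 ∈ univ from ⟨k1, mem_univ _⟩))))
      obtain ⟨x3, x4⟩ := Prod.mk.inj x2
      exact (mem_filter.1 (mem_product.1 x1).1).2 ((congrArg x.1 x4).symm.trans x3)⟩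
    obtain ⟨M2, m1, m2⟩ := ih (M.filter fun g2 => ¬ g2 a = g a)
      (filter_ssubset.2 ⟨g, k1, not_not.2 rfl⟩) (by
      have := Nat.mul_le_mul_left D c2
      rw [Nat.mul_succ] at this
      omega)
    exact ⟨M2, m1.trans (filter_subset _ _), m2⟩

lemma tr_emb {m : ℕ} {f : ℕ → W0 ↪ ℕ} (hf : ∀ i ≤ m, 0 < i → ∃ j < i, ∃ (a : W0) (σ : F ≃g F),
      f i a = f j (σ a) ∧ ∀ l < i, ∀ b c, f i b = f l c → b = a) {M : Finset (W0 ↪ V)}
    (h0 : M.Nonempty) (h1 : ∀ g ∈ M, ∀ g2 ∈ M, g ≠ g2 → TrL g g2)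
    (h2 : ∀ g ∈ M, ∀ a, m * Fintype.card W0 < (M.filter fun g2 => g2 a = g a).card)
    [Nonempty V] (i : ℕ) (hi : i ≤ m) :
    ∃ ψ : ℕ → V, (∀ j ≤ i, ∀ l ≤ i, ∀ b c, ψ (f j b) = ψ (f l c) → f j b = f l c) ∧
      ∀ j ≤ i, ∃ g ∈ M, ∃ τ : F ≃g F, ∀ a, ψ (f j a) = g (τ a) := by
  induction i with
  | zero =>
    obtain ⟨g, hg⟩ := h0
    refine ⟨Function.extend (f 0) g fun _ => Classical.arbitrary V, fun j a1 l a2 b c => ?_,
      fun j a1 => ⟨g, hg, .refl, fun a => ?_⟩⟩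
    · rw [Nat.le_zero.1 a1, Nat.le_zero.1 a2, (f 0).injective.extend_apply,
        (f 0).injective.extend_apply]
      exact fun e => congrArg _ (g.injective e)
    · rw [Nat.le_zero.1 a1, (f 0).injective.extend_apply]
      rfl
  | succ i ih =>
    obtain ⟨ψ, p1, p2⟩ := ih (by omega)
    obtain ⟨j, j1, a, σ, j2, j3⟩ := hf (i + 1) hi (by omega)
    obtain ⟨g, g1, τ, g2⟩ := p2 j (by omega)
    obtain ⟨g', q1, q2⟩ : ∃ g' ∈ M.filter fun g2 => g2 (τ (σ a)) = g (τ (σ a)),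
        ∀ b, b ≠ τ (σ a) → ∀ l ≤ i, ∀ c, g' b ≠ ψ (f l c) := by
      by_contra k
      push Not at k
      have : Nonempty W0 := ⟨a⟩
      choose! b b1 l l1 c c1 using k
      refine (h2 g g1 (τ (σ a))).not_ge (le_trans (card_le_card_of_injOn (t := range m ×ˢ univ)
        (fun x => (l x, c x)) (fun x hx => mem_coe.2 (mem_product.2 ⟨mem_range.2
          ((l1 x hx).trans_lt hi), mem_univ _⟩)) fun x hx y hy e => by_contra fun k => ?_) (by simp))
      obtain ⟨e1, e2⟩ := Prod.mk.inj e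
      obtain ⟨x1, x2⟩ := mem_filter.1 (mem_coe.1 hx)
      obtain ⟨y1, y2⟩ := mem_filter.1 (mem_coe.1 hy)
      exact b1 x hx (h1 x x1 y y1 k _ _ _ _ (by rw [c1 x hx, c1 y hy, e1, e2]) (x2.trans y2.symm))
    obtain ⟨q0, q1⟩ := mem_filter.1 q1
    have n1 : ∀ b, Function.extend (f (i + 1)) (fun b => g' (τ (σ b))) ψ (f (i + 1) b) =
        g' (τ (σ b)) := fun b => (f (i + 1)).injective.extend_apply _ _ _
    have n2 : ∀ l ≤ i, ∀ c, Function.extend (f (i + 1)) (fun b => g' (τ (σ b))) ψ (f l c) =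
        ψ (f l c) := fun l hl c => by
      by_cases k : ∃ b, f (i + 1) b = f l c
      · obtain ⟨b, k⟩ := k
        obtain rfl := j3 l (by omega) b c k
        rw [← k, n1, q1, j2, g2]
      · exact Function.extend_apply' _ _ _ k
    have n3 : ∀ l ≤ i, ∀ b c, g' (τ (σ b)) = ψ (f l c) → f (i + 1) b = f l c := fun l hl b c e => by
      obtain rfl : b = a := σ.injective (τ.injective (by_contra fun k => q2 _ k l hl c e))
      rw [j2]
      exact p1 j (by omega) l hl _ _ ((g2 _).trans (q1.symm.trans e))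
    refine ⟨Function.extend (f (i + 1)) (fun b => g' (τ (σ b))) ψ, fun s s1 l l1 b c => ?_,
      fun s s1 => ?_⟩
    · rcases Nat.le_succ_iff.1 s1 with s1 | rfl <;> rcases Nat.le_succ_iff.1 l1 with l1 | rfl
      · rw [n2 s s1, n2 l l1]; exact p1 s s1 l l1 b c
      · rw [n2 s s1, n1]; exact fun e => (n3 s s1 c b e.symm).symm
      · rw [n2 l l1, n1]; exact n3 l l1 b c
      · rw [n1, n1]; exact fun e => congrArg _ (σ.injective (τ.injective (g'.injective e)))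
    · rcases Nat.le_succ_iff.1 s1 with s1 | rfl
      · obtain ⟨g3, g4, τ3, g5⟩ := p2 s s1
        exact ⟨g3, g4, τ3, fun a => (n2 s s1 a).trans (g5 a)⟩
      · exact ⟨g', q0, σ.trans τ, n1⟩

/-- Number of pairs of edge-disjoint members with two common vertices. -/
noncomputable def trN (𝒞 : Finset (Finset (Sym2 V))) (ω : Finset (Sym2 V)) : ℝ :=
  ∑ T ∈ 𝒞, ∑ T2 ∈ 𝒞, ind (T ∪ T2 ⊆ ω ∧ Disjoint T T2 ∧ 2 ≤ (vs T2 ∩ vs T).card)

lemma tr_det (B : HBal F) (hT : TreeOf F H) : ∃ K : ℕ, ∀ (V : Type) [Fintype V] [DecidableEq V]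
    (ω ω2 : Finset (Sym2 V)), ω2 ⊆ ω → (∀ T ∈ copies H V, ¬ T ⊆ ω2) → ∃ A : Finset (Sym2 V),
      (A.card : ℝ) ≤ F.edgeFinset.card * (K * Fintype.card V + trN (copies F V) ω) ∧
      ∀ T ∈ copies F V, ¬ T ⊆ ω2 \ A := by
  classical
  obtain ⟨m, f, e, t1, t2, t3⟩ := hT
  have k0 : 0 < F.edgeFinset.card := by have := B.h3; have := B.hk; omega
  refine ⟨m * Fintype.card W0 * Fintype.card W0, fun V _ _ ω ω2 s1 s2 => ?_⟩
  obtain ⟨M, hM, hmax⟩ := exists_max_image (univ.filter fun M : Finset (W0 ↪ V) =>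
    (∀ g ∈ M, img F g ⊆ ω2) ∧ ∀ g ∈ M, ∀ g2 ∈ M, g ≠ g2 → TrL g g2) card ⟨∅, by simp⟩
  obtain ⟨m1, m2⟩ := (mem_filter.1 hM).2
  have c1 : M.card ≤ m * Fintype.card W0 * Fintype.card W0 * Fintype.card V := by
    by_contra k
    obtain ⟨M2, a1, a2, a3⟩ := tr_clean (m * Fintype.card W0) M (lt_of_le_of_lt (by
      rw [mul_assoc _ _ (Fintype.card V), mul_comm (Fintype.card W0) (Fintype.card V),
        ← Fintype.card_prod]
      exact Nat.mul_le_mul_left _ (card_le_univ _)) (not_le.1 k))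
    have : Nonempty V := by
      obtain ⟨g, -⟩ := a2
      obtain ⟨a⟩ := Fintype.card_pos_iff.1 (show 0 < Fintype.card W0 by have := B.h3; omega)
      exact ⟨g a⟩
    obtain ⟨ψ, p1, p2⟩ := tr_emb t3 a2 (fun g hg g2 hg2 => m2 g (a1 hg) g2 (a1 hg2)) a3 m le_rfl
    refine s2 _ (mem_image_of_mem _ (mem_univ (⟨fun u => ψ (e u), fun u v k => ?_⟩ : W ↪ V)))
      (image_subset_iff.2 fun x hx => ?_)
    · obtain ⟨i, i1, a, i2⟩ := t1 u
      obtain ⟨j, j1, b, j2⟩ := t1 v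
      refine e.injective ?_
      simp only [i2, j2] at k ⊢
      exact p1 i i1 j j1 a b k
    · induction x using Sym2.ind with
      | _ u v =>
        obtain ⟨i, i1, a, b, i2, i3, i4⟩ := t2 u v (by simpa using hx)
        obtain ⟨g, g1, τ, g2⟩ := p2 i i1
        show s(ψ (e u), ψ (e v)) ∈ ω2
        rw [i3, i4, g2, g2]
        exact m1 g (a1 g1) (mem_img.2 (τ.map_adj_iff.2 i2))
  let Bd := (copies F V).filter fun T => ∃ T2 ∈ copies F V,
    T ∪ T2 ⊆ ω ∧ Disjoint T T2 ∧ 2 ≤ (vs T2 ∩ vs T).card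
  refine ⟨M.biUnion (img F) ∪ Bd.biUnion id, ?_, fun T hT hs => ?_⟩
  · have a1 := card_biUnion_le_card_mul M (img F) _ fun g _ => (card_img g).le
    have a2 := card_biUnion_le_card_mul Bd id F.edgeFinset.card fun T hT => by
      obtain ⟨g, -, rfl⟩ := mem_image.1 (mem_filter.1 hT).1
      exact (card_img g).le
    have a3 : (Bd.card : ℝ) ≤ trN (copies F V) ω :=
      (sum_ind _ _).symm.trans_le (sum_le_sum fun T _ => ind_exists_le _ _)
    have a4 := (Nat.cast_le (α := ℝ)).2 ((card_union_le _ _).trans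
      (add_le_add (a1.trans (Nat.mul_le_mul_right _ c1)) a2))
    push_cast at a4 ⊢
    linarith only [a4, mul_le_mul_of_nonneg_left a3 (Nat.cast_nonneg F.edgeFinset.card)]
  · obtain ⟨g, -, rfl⟩ := mem_image.1 hT
    have s3 : img F g ⊆ ω2 := hs.trans sdiff_subset
    have d1 : ∀ x ∈ img F g, x ∉ M.biUnion (img F) ∧ x ∉ Bd.biUnion id := fun x hx =>
      not_or.1 fun k => (mem_sdiff.1 (hs hx)).2 (mem_union.2 k)
    obtain ⟨x, hx⟩ := card_pos.1 ((card_img (H := F) g).symm ▸ k0)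
    have d2 : g ∉ M := fun k => (d1 x hx).1 (mem_biUnion.2 ⟨g, k, hx⟩)
    have d3 : ∀ g2 ∈ M, TrL g g2 := fun g2 k a b c d e1 e2 => by_contra fun e3 => (d1 x hx).2
      (mem_biUnion.2 ⟨_, mem_filter.2 ⟨hT, img F g2, mem_image_of_mem _ (mem_univ _),
        union_subset (s3.trans s1) ((m1 g2 k).trans s1),
        disjoint_left.2 fun y y1 y2 => (d1 y y1).1 (mem_biUnion.2 ⟨g2, k, y2⟩), by
          rw [B.vs_img, B.vs_img]
          exact one_lt_card.2 ⟨g a, mem_inter.2 ⟨e1 ▸ mem_map_of_mem _ (mem_univ _),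
            mem_map_of_mem _ (mem_univ _)⟩, g c, mem_inter.2 ⟨e2 ▸ mem_map_of_mem _ (mem_univ _),
            mem_map_of_mem _ (mem_univ _)⟩, g.injective.ne e3⟩⟩, hx⟩)
    have := hmax (insert g M) (mem_filter.2 ⟨mem_univ _, forall_mem_insert _ _ _ |>.2 ⟨s3, m1⟩,
      fun x hx y hy k => by
        rcases mem_insert.1 hx with e1 | e1 <;> rcases mem_insert.1 hy with e2 | e2
        exacts [absurd (e1.trans e2.symm) k, e1 ▸ d3 y e2, e2 ▸ (d3 x e1).symm, m2 x e1 y e2 k]⟩)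
    rw [card_insert_of_notMem d2] at this
    omega

lemma tr_E {𝒞 : Finset (Finset (Sym2 V))} {h k K0 : ℕ} (S : Sys 𝒞 h k K0) {p : ℝ} (p0 : 0 ≤ p)
    (p1 : p ≤ 1) : E p (trN 𝒞) ≤ K0 * (Fintype.card V : ℝ) ^ h *
      (h ^ 2 * (K0 * (Fintype.card V : ℝ) ^ (h - 2)) * p ^ (k + k)) := by
  classical
  have c0 := S.count0 ∅
  simp only [empty_subset, filter_true, card_empty, Nat.sub_zero] at c0
  unfold trN
  rw [E_sum]
  refine (sum_le_card_nsmul _ _ (h ^ 2 * (K0 * (Fintype.card V : ℝ) ^ (h - 2)) * p ^ (k + k))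
    fun T hT => ?_).trans ?_
  · rw [E_sum]
    refine (sum_le_sum (g := fun T2 => ind (2 ≤ (vs T2 ∩ vs T).card) * p ^ (k + k))
      fun T2 h2 => ?_).trans ?_
    · by_cases e : Disjoint T T2 ∧ 2 ≤ (vs T2 ∩ vs T).card
      · rw [ind_pos e.2, one_mul]
        refine (Pr_mono p0 p1 fun ω a => a.1).trans_eq ?_
        rw [Pr_subset, card_union_of_disjoint e.1, S.card T hT, S.card T2 h2]
      · refine ((Pr_mono p0 p1 fun ω a => e a.2).trans_eq Pr_false).trans ?_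
        exact mul_nonneg (ind_nonneg _) (pow_nonneg p0 _)
    · rw [← sum_mul, sum_ind]
      refine mul_le_mul_of_nonneg_right ?_ (pow_nonneg p0 _)
      have := S.count1 (vs T) 2
      rw [S.cvs T hT] at this
      exact_mod_cast this
  · rw [nsmul_eq_mul]
    exact mul_le_mul_of_nonneg_right (by exact_mod_cast c0) (by positivity)

theorem tr_up (B : HBal F) (hT : TreeOf F H) {p : ℕ → ℝ} {K0 : ℕ} {μ Λ : ℝ}
    (R0 : HReg p (fun n => copies F (Fin n)) (Fintype.card W0) F.edgeFinset.card K0 μ Λ)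
    {d d2 : ℝ} (d1 : d2 < d) (hd : d ≤ 1)
    (hF : Whp p fun n => HEv (copies F (Fin n)) (d2 * p n * n) 0) :
    Whp p fun n => HEv (copies H (Fin n)) (d * p n * n) 0 := by
  obtain ⟨K, hK⟩ := tr_det B hT
  have h3 := B.h3
  have hk := B.hk
  have hΛ := R0.pos
  generalize Fintype.card W0 = h at *
  generalize hkk : F.edgeFinset.card = k at *
  have k0 : (0 : ℝ) < k := by exact_mod_cast (by omega : 0 < k)
  refine (whp_iff R0.p0 R0.p1).2 fun β hβ => ?_
  obtain ⟨ε, hε⟩ : ∃ ε, ε = (d - d2) / 5 := ⟨_, rfl⟩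
  have h0 : 0 < ε := by linarith only [hε, d1]
  obtain ⟨η, hη, h1⟩ := hlower_core R0 (ν := d) (d := d2) (b := β / 32) h0 (by linarith only [hε])
    (by linarith only [hε, hd, d1]) (by positivity) 0
  obtain ⟨z, hz⟩ : ∃ z, z = ε * η / 32 / k := ⟨_, rfl⟩
  have z0 : 0 < z := by rw [hz]; positivity
  have w1 : Whp p fun n ω => ¬ z * (p n * n * n) ≤ trN (copies F (Fin n)) ω := by
    refine whp_of_le R0.p0 R0.p1 (f := fun n => (K0 * h * (Λ + 1)) ^ 2 / z * p n)
      (by simpa using R0.lim0.const_mul ((K0 * h * (Λ + 1)) ^ 2 / z)) ?_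
    filter_upwards [R0.bd, R0.inf.eventually (eventually_gt_atTop 0)] with n a1 a2
    have n0 : (0 : ℝ) < n := pos_of_mul_pos_right a2 (R0.p0 n) |> fun h => h
    have pp := R0.p0 n
    simp only [not_not]
    refine (markov pp (R0.p1 n) (fun ω => sum_nonneg fun _ _ => sum_nonneg fun _ _ => ind_nonneg _)
      (by positivity)).trans ?_
    rw [div_le_iff₀ (by positivity)]
    refine (tr_E (R0.sys n) pp (R0.p1 n)).trans ?_
    obtain ⟨v, rfl⟩ : ∃ v, h = v + 2 := ⟨h - 2, by omega⟩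
    obtain ⟨j, rfl⟩ : ∃ j, k = j + 1 := ⟨k - 1, by omega⟩
    rw [Nat.add_sub_cancel, Nat.add_sub_cancel] at a1
    rw [Fintype.card_fin, Nat.add_sub_cancel]
    refine le_of_eq_of_le (b := (K0 * (v + 2 : ℕ) * ((n : ℝ) ^ v * p n ^ j)) ^ 2 * (p n * n) ^ 2)
      (by ring) (le_of_le_of_eq (b := (K0 * (v + 2 : ℕ) * (Λ + 1)) ^ 2 * (p n * n) ^ 2)
        (by gcongr) (by field_simp))
  filter_upwards [h1, (whp_iff R0.p0 R0.p1).1 (hF.and R0.p0 R0.p1 w1) (β / 2) (by positivity),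
    R0.inf.eventually (eventually_gt_atTop 0), R0.inf.eventually_ge_atTop (K / z)]
    with n e0 e5 e4 e3
  have h2 : (0 : ℝ) < n := pos_of_mul_pos_right e4 (R0.p0 n) |> fun h => h
  refine le_trans (Pr_mono (R0.p0 n) (R0.p1 n) fun ω hω => (em _).imp_left ?_)
    ((Pr_or_le (R0.p0 n) (R0.p1 n) _ _).trans ((add_le_add e0 e5).trans (by linarith only [hβ])))
  rintro ⟨g0, g4⟩
  unfold HEv at hω
  simp only [not_forall] at hω
  obtain ⟨ω2, g5, g6, g7, -⟩ := hω
  obtain ⟨A, r1, r2⟩ := hK _ ω ω2 g5 g6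
  have r3 : ∀ v, 0 ≤ dgE A v := fun v => sum_nonneg fun _ _ => ind_nonneg _
  refine ⟨g0, ω2 \ A, sdiff_subset.trans g5, r2, fun v => d * p n * n - dgE A v, fun _ => 0, ?_,
    fun v => (sub_zero _).trans_le (sub_le_iff_le_add.2 ((g7 v).trans (cr_dg
      (inter_subset_right.trans (subset_union_left.trans sdiff_union_self_eq_union.ge)) v))), ?_⟩
  · rw [sum_eq_zero fun _ _ => zero_pow two_ne_zero]
    exact mul_nonneg (Nat.cast_nonneg _) (sum_nonneg fun _ _ => ind_nonneg _)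
  · have a0 := mul_pos h0 e4
    have a1 : ∀ v, ind (ε * (p n * n) ≤ |d * p n * n - dgE A v - d * (p n * n)|) ≤
        dgE A v / (ε * (p n * n)) := fun v => by
      rw [show d * p n * n - dgE A v - d * (p n * n) = -dgE A v by ring, abs_neg,
        abs_of_nonneg (r3 v)]
      by_cases h : ε * (p n * n) ≤ dgE A v
      · rw [ind_pos h]; exact (one_le_div a0).2 h
      · rw [ind_neg h]; exact div_nonneg (r3 v) a0.le
    refine (sum_le_sum fun v _ => a1 v).trans ?_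
    rw [← sum_div, div_le_iff₀ a0]
    rw [div_le_iff₀ z0] at e3
    rw [Fintype.card_fin] at r1
    have a2 := mul_le_mul_of_nonneg_left (add_le_add (mul_le_mul_of_nonneg_right e3 h2.le)
      (not_le.1 g4).le) k0.le
    have a3 : k * (p n * n * z * n + z * (p n * n * n)) = ε * η / 16 * (p n * n * n) := by
      rw [hz]
      field_simp
      ring
    linarith only [cr_hs A, r1, a2, a3]

theorem tr_main (B : HBal F) (hT : TreeOf F H) (φ : W0 ↪ W) (hφ : ∀ a b, F.Adj a b → H.Adj (φ a) (φ b))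
    {p : ℕ → unitInterval} {K0 : ℕ} {μ Λ : ℝ}
    (R0 : HReg (fun n => p n) (fun n => copies F (Fin n)) (Fintype.card W0) F.edgeFinset.card K0 μ Λ) :
    chromThreshold H p = chromThreshold F p := by
  refine le_antisymm ?_ ?_
  · rw [chrom_eq_turan R0, hchrom_eq]
    refine le_of_forall_gt_imp_ge_of_dense fun d h1 => csInf_le ⟨0, fun _ h => h.1.le⟩ ?_
    rw [turan_eq] at h1
    obtain ⟨d2, ⟨d0, h3⟩, d1⟩ := exists_lt_of_csInf_lt
      (by exact ⟨2, two_pos, turan_mem R0 one_lt_two⟩) h1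
    refine ⟨d0.trans d1, 0, ?_⟩
    by_cases e : d ≤ 1
    · exact tr_up B hT R0 d1 e h3
    · exact cr_big R0 (not_le.1 e)
  · rw [hchrom_eq, hchrom_eq]
    refine csInf_le_csInf ⟨0, fun _ h => h.1.le⟩ ⟨2, two_pos, 0, cr_big R0 one_lt_two⟩
      fun d ⟨d0, Cc, hd⟩ => ⟨d0, Cc, Whp.mono R0.p0 R0.p1 hd
        (Eventually.of_forall fun n ω h ω2 h1 h2 => h ω2 h1 fun T hT hs => ?_)⟩
    obtain ⟨f, -, rfl⟩ := mem_image.1 hT
    refine h2 _ (mem_image_of_mem _ (mem_univ (φ.trans f))) (Subset.trans ?_ hs)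
    refine image_subset_iff.2 fun e he => ?_
    induction e using Sym2.ind with
    | _ a b => exact mem_img.2 (hφ a b (by simpa using he))

end Pool.Agent.Work.MP_d4a230_co.U
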