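import Pool.Agent.Work.MP_d4a230_co.L.Tur

namespace Pool.Agent.Work.MP_d4a230_co.U

lemma un_one {y : ℝ} (h0 : 0 ≤ y) : y - y * Real.log y ≤ 1 := by
  rcases h0.eq_or_lt with rfl | h
  · simp
  · have h1 := mul_le_mul_of_nonneg_left (Real.one_sub_inv_le_log_of_pos h) h0
    rw [mul_sub, mul_inv_cancel₀ h.ne'] at h1
    linarith

lemma un_half {x : ℝ} (h0 : 0 ≤ x) (h1 : x ≤ 1 / 16) : x - x * Real.log x ≤ 1 / 2 := by
  obtain ⟨s, s0, rfl⟩ : ∃ s : ℝ, 0 ≤ s ∧ x = s ^ 2 := ⟨√x, Real.sqrt_nonneg x, (Real.sq_sqrt h0).symm⟩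
  have h2 := mul_le_mul_of_nonneg_left (un_one s0) s0
  have h3 : s ≤ 1 / 4 := by nlinarith
  rw [Real.log_pow]
  push_cast
  nlinarith

lemma un_potts {W : Type} [Fintype W] {F : SimpleGraph W} {r : ℕ} (hF : F.Colorable r) {x y : ℝ}
    (hx : 0 ≤ x) (hy : 0 ≤ y) : x ^ F.edgeSet.ncard / (r : ℝ) ^ Nat.card W ≤ potts F r x y := by
  classical
  obtain ⟨κ⟩ := hF
  have h : ∀ e ∈ F.edgeSet, ¬ (e.map κ).IsDiag := by
    intro e he
    induction e using Sym2.ind with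
    | _ a b => simpa using κ.valid he
  have h1 : {e ∈ F.edgeSet | ¬ (e.map κ).IsDiag} = F.edgeSet :=
    Set.ext fun e => ⟨fun k => k.1, fun k => ⟨k, h e k⟩⟩
  have h2 : {e ∈ F.edgeSet | (e.map κ).IsDiag} = ∅ :=
    Set.eq_empty_of_forall_notMem fun e k => h e k.1 k.2
  unfold potts
  refine div_le_div_of_nonneg_right ?_ (by positivity)
  rw [finsum_eq_sum_of_fintype]
  refine le_trans (le_of_eq ?_) (Finset.single_le_sum (f := fun χ : W → Fin r =>
    x ^ {e ∈ F.edgeSet | ¬ (e.map χ).IsDiag}.ncard * y ^ {e ∈ F.edgeSet | (e.map χ).IsDiag}.ncard)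
    (fun _ _ => by positivity) (Finset.mem_univ (κ : W → Fin r)))
  rw [h1, h2, Set.ncard_empty, pow_zero, mul_one]

lemma un_le {W : Type} [Fintype W] {F : SimpleGraph W} {r : ℕ} (hr : 3 ≤ r) (hF : F.Colorable r)
    {c x y : ℝ} (hx : 0 ≤ x) (hy : 0 ≤ y)
    (hc : (16 : ℝ) ^ F.edgeSet.ncard * (r : ℝ) ^ Nat.card W ≤
      copyRate F c / (F.edgeSet.ncard : ℝ)) : bethe F r c x y ≤ 1 - 1 / (r : ℝ) := by
  have r3 : (3 : ℝ) ≤ r := by exact_mod_cast hr
  have h1 : 1 / (r : ℝ) ≤ 1 / 3 := one_div_le_one_div_of_le (by norm_num) r3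
  have h2 : 0 < 1 / (r : ℝ) := by positivity
  have h3 := un_potts hF hx hy
  have h4 : (16 * x) ^ F.edgeSet.ncard ≤ copyRate F c / (F.edgeSet.ncard : ℝ) * potts F r x y := by
    refine le_trans (le_of_eq ?_) (mul_le_mul hc h3 (by positivity) (le_trans (by positivity) hc))
    rw [mul_pow]
    field_simp
  have h5 := mul_le_mul_of_nonneg_left (un_one hy) h2.le
  unfold bethe
  rcases le_total x (1 / 16) with h | h
  · have h6 := mul_le_mul_of_nonneg_left (un_half hx h) (by linarith : 0 ≤ 1 - 1 / (r : ℝ))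
    have h7 : 0 ≤ (16 * x) ^ F.edgeSet.ncard := by positivity
    linarith
  · have h6 := mul_le_mul_of_nonneg_left (un_one hx) (by linarith : 0 ≤ 1 - 1 / (r : ℝ))
    have h7 : 1 ≤ (16 * x) ^ F.edgeSet.ncard := one_le_pow₀ (by linarith)
    linarith

end Pool.Agent.Work.MP_d4a230_co.U
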