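import Pool.Agent.Work.MP_d4a230_co.C.Defs

namespace Pool.Agent.Work.MP_d4a230_co

/-- `H` is contained in a union of copies `f 0, …, f m` of `F` in which every later copy meets the
union of the earlier ones in exactly one vertex, whose positions in the new copy and in some earlier
copy are equivalent under an automorphism of `F`. -/
def TreeOf {W0 W : Type} (F : SimpleGraph W0) (H : SimpleGraph W) : Prop :=
  ∃ (m : ℕ) (f : ℕ → W0 ↪ ℕ) (e : W ↪ ℕ),
    (∀ u, ∃ i ≤ m, ∃ a, e u = f i a) ∧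
    (∀ u v, H.Adj u v → ∃ i ≤ m, ∃ a b, F.Adj a b ∧ e u = f i a ∧ e v = f i b) ∧
    ∀ i ≤ m, 0 < i → ∃ j < i, ∃ (a : W0) (σ : F ≃g F), f i a = f j (σ a) ∧
      ∀ l < i, ∀ b c, f i b = f l c → b = a

end Pool.Agent.Work.MP_d4a230_co
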